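import Pool.Agent.Helper89.MR.Ball
import Pool.Agent.Helper76.MR.Choose
import Pool.Agent.Helper76.MR.FactD
import Pool.Agent.Helper76.MR.Mv
import Pool.Agent.Helper55.MR.Re

/-!
# MRDP and Hilbert's tenth problem
-/

namespace Pool.Agent.Helper50.MR

open Nat.Partrec (Code)

/-- The bounded universal quantifier. -/
theorem ballStmt : Helper55.MR.BallStmt := fun _ _ d _ df =>
  Helper89.MR.ball_dioph_of (fun {_ _ _} a b => Helper76.MR.choose_dioph a b)
    (fun {_ _} a => Helper76.MR.factorial_dioph a) d df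

/-- (H) Recursively enumerable sets of natural numbers are Diophantine. -/
theorem re_dioph {p : ℕ → Prop} (hp : REPred p) :
    ∃ (n : ℕ) (P : Poly (Option (Fin n))), ∀ a, p a ↔
      ∃ t : Fin n → ℕ, P (Option.elim' a t) = 0 :=
  Helper55.MR.re_dioph_of ballStmt hp

/-- (H') The same with a polynomial in the sense of Mathlib. -/
theorem re_mvPolynomial {p : ℕ → Prop} (hp : REPred p) :
    ∃ (n : ℕ) (P : MvPolynomial (Option (Fin n)) ℤ), ∀ a : ℕ, p a ↔
      ∃ t : Fin n → ℕ, MvPolynomial.eval (fun i => ((Option.elim' a t i : ℕ) : ℤ)) P = 0 :=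
  Helper76.MR.to_mv (re_dioph hp)

/-- The same with integer unknowns. -/
theorem re_int {p : ℕ → Prop} (hp : REPred p) :
    ∃ (n : ℕ) (P : MvPolynomial (Option (Fin n)) ℤ), ∀ a : ℕ, p a ↔
      ∃ t : Fin n → ℤ, MvPolynomial.eval (Option.elim' (a : ℤ) t) P = 0 :=
  Helper76.MR.to_mv_int (re_dioph hp)

/-- A recursively enumerable set of natural numbers which is not computable. -/
theorem exists_re_not_computable : ∃ p : ℕ → Prop, REPred p ∧ ¬ ComputablePred p := by
  refine ⟨fun a => (Nat.Partrec.Code.eval (Denumerable.ofNat Code a) 0).Dom, ?_, ?_⟩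
  · exact (Nat.Partrec.Code.eval_part.comp (Computable.ofNat Code) (Computable.const 0)).dom_re
  · intro h
    refine ComputablePred.halting_problem 0 ?_
    obtain ⟨f, hf, he⟩ := ComputablePred.computable_iff.1 h
    refine ComputablePred.computable_iff.2
      ⟨fun c => f (Encodable.encode c), hf.comp Computable.encode, ?_⟩
    funext c
    have := congrFun he (Encodable.encode c)
    simpa using this

/-- Hilbert's tenth problem for one family of equations, natural unknowns. -/
theorem undecidable_nat : ∃ (n : ℕ) (P : MvPolynomial (Option (Fin n)) ℤ),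
    ¬ ComputablePred fun a : ℕ =>
      ∃ t : Fin n → ℕ, MvPolynomial.eval (fun i => ((Option.elim' a t i : ℕ) : ℤ)) P = 0 := by
  obtain ⟨p, hp, hc⟩ := exists_re_not_computable
  obtain ⟨n, P, hP⟩ := re_mvPolynomial hp
  exact ⟨n, P, fun h => hc (h.of_eq fun a => (hP a).symm)⟩

/-- Hilbert's tenth problem for one family of equations, integer unknowns. -/
theorem undecidable_int : ∃ (n : ℕ) (P : MvPolynomial (Option (Fin n)) ℤ),
    ¬ ComputablePred fun a : ℕ =>
      ∃ t : Fin n → ℤ, MvPolynomial.eval (Option.elim' (a : ℤ) t) P = 0 := by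
  obtain ⟨p, hp, hc⟩ := exists_re_not_computable
  obtain ⟨n, P, hP⟩ := re_int hp
  exact ⟨n, P, fun h => hc (h.of_eq fun a => (hP a).symm)⟩

end Pool.Agent.Helper50.MR
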