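import Mathlib

/-!
# The map `a ↦ C + a D` is computable
-/

namespace Pool.Agent.Helper50.MR.Comp

theorem encode_sub (u w : ℕ) : Encodable.encode ((u : ℤ) - (w : ℤ)) =
    if w ≤ u then 2 * (u - w) else 2 * (w - u - 1) + 1 := by
  have h : ∀ z : ℤ, Encodable.encode z = Equiv.intEquivNat z := fun z => rfl
  rw [h]
  split_ifs with hw
  · obtain ⟨t, rfl⟩ := Nat.exists_eq_add_of_le hw
    have : ((w + t : ℕ) : ℤ) - (w : ℤ) = Int.ofNat t := by
      push_cast
      simp
    rw [this, Nat.add_sub_cancel_left]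
    rfl
  · push Not at hw
    obtain ⟨t, rfl⟩ := Nat.exists_eq_add_of_lt hw
    have : ((u : ℕ) : ℤ) - ((u + t + 1 : ℕ) : ℤ) = Int.negSucc t := by
      rw [Int.negSucc_eq]
      push_cast
      ring
    rw [this]
    have h2 : u + t + 1 - u - 1 = t := by omega
    rw [h2]
    rfl

theorem primrec_sub {f g : ℕ → ℕ} (hf : Primrec f) (hg : Primrec g) :
    Primrec fun a : ℕ => ((f a : ℕ) : ℤ) - ((g a : ℕ) : ℤ) := by
  refine Primrec.encode_iff.1 ?_
  have h1 : Primrec fun a : ℕ => if g a ≤ f a then 2 * (f a - g a) else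
      2 * (g a - f a - 1) + 1 := by
    refine Primrec.ite (Primrec.nat_le.comp hg hf) ?_ ?_
    · exact Primrec.nat_mul.comp (Primrec.const 2) (Primrec.nat_sub.comp hf hg)
    · exact Primrec.succ.comp (Primrec.nat_mul.comp (Primrec.const 2)
        (Primrec.nat_sub.comp (Primrec.nat_sub.comp hg hf) (Primrec.const 1)))
  refine h1.of_eq fun a => ?_
  rw [encode_sub]

/-- `a ↦ c + a d` -/
theorem primrec_aff (c d : ℤ) : Primrec fun a : ℕ => c + (a : ℤ) * d := by
  have h1 : Primrec fun a : ℕ => c.toNat + a * d.toNat :=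
    Primrec.nat_add.comp (Primrec.const _) (Primrec.nat_mul.comp Primrec.id (Primrec.const _))
  have h2 : Primrec fun a : ℕ => (-c).toNat + a * (-d).toNat :=
    Primrec.nat_add.comp (Primrec.const _) (Primrec.nat_mul.comp Primrec.id (Primrec.const _))
  refine (primrec_sub h1 h2).of_eq fun a => ?_
  have hc : ((c.toNat : ℕ) : ℤ) - (((-c).toNat : ℕ) : ℤ) = c := Int.toNat_sub_toNat_neg c
  have hd : ((d.toNat : ℕ) : ℤ) - (((-d).toNat : ℕ) : ℤ) = d := Int.toNat_sub_toNat_neg d
  push_cast only [Nat.cast_add, Nat.cast_mul]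
  conv_rhs => rw [← hc, ← hd]
  ring

theorem primrec_pi {n : ℕ} {σ : Type} [Primcodable σ] {f : ℕ → Fin n → σ}
    (h : ∀ i, Primrec fun a => f a i) : Primrec f :=
  Primrec.fin_curry.2 ((Primrec.fin_curry₁ (f := fun i a => f a i)).2 h).swap

/-- the pencil is computable -/
theorem computable_pencil {n : ℕ} (C D : Fin n → Fin n → Fin n → ℤ) :
    Computable fun a : ℕ => (fun i j k => C i j k + (a : ℤ) * D i j k :
      Fin n → Fin n → Fin n → ℤ) := by
  refine Primrec.to_comp (primrec_pi fun i => primrec_pi fun j => primrec_pi fun k => ?_)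
  exact primrec_aff _ _

end Pool.Agent.Helper50.MR.Comp
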