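import Pool.Agent.Helper50.MR.Final
import Pool.Agent.Helper89.MR.Red
import Pool.Agent.Helper57.MR.Rigid

/-!
# `F1`, `F2`, `F3`
-/

namespace Pool.Agent.Helper50.MR.Final

open Pool.Agent.Helper41.MR Pool.Agent.Helper50.MR.Transport

theorem rigStmt : Helper89.MR.RigStmt := by
  intro ι ν κ _ _ _ k d e T h1 h2 hk he F hF A B hAB hA hB
  classical
  exact Helper57.MR.rigidity T h1 h2 hk he F hF A B hAB hA hB

/-- Every r.e. set is the splitting set of a pencil. -/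
theorem f1 : F1 := by
  intro p hp
  obtain ⟨m, P, hP⟩ := re_int hp
  obtain ⟨M, N, h, μ₀, μ₁, h₀, h₁, hV⟩ := Helper89.MR.reduction_of rigStmt P
  obtain ⟨n, C, D, hC, hD, hn⟩ := exists_arrays μ₀ μ₁ (fun x y => ⟨h₀.1 x y, h₀.2.2 y x⟩)
    (fun x y => ⟨h₁.1 x y, h₁.2.2 y x⟩)
  refine ⟨n, C, D, hC, hD, fun a => ?_⟩
  rw [hP a, hn a, hV a]
  rfl

theorem f2 : F2 := (f2_f3_of_f1 f1).1

theorem f3 : F3 := (f2_f3_of_f1 f1).2

end Pool.Agent.Helper50.MR.Final
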