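import Pool.Agent.Helper41.MR.Stmt

/-!
# Splitting of a trilinear form on a free module, in coordinates
-/

namespace Pool.Agent.Helper50.MR.Transport

open Pool.Agent.Helper41.MR

variable {V : Type} [AddCommGroup V] [Module ℤ V] {n : ℕ}

/-- the form vanishes on both summands of a decomposition -/
def SplitsV (μ : V → V → V → ℤ) : Prop :=
  ∃ A B : Submodule ℤ V, IsCompl A B ∧
    (∀ x ∈ A, ∀ y ∈ A, ∀ z ∈ A, μ x y z = 0) ∧
    (∀ x ∈ B, ∀ y ∈ B, ∀ z ∈ B, μ x y z = 0)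

theorem tri_eq (b : Module.Basis (Fin n) ℤ V) (μ : V →ₗ[ℤ] V →ₗ[ℤ] V →ₗ[ℤ] ℤ) (x y z : V) :
    tri (fun i j k => μ (b i) (b j) (b k)) (b.equivFun x) (b.equivFun y) (b.equivFun z) =
      μ x y z := by
  have h1 : ∀ x y z, μ x y z = ∑ i, b.equivFun x i * μ (b i) y z := by
    intro x y z
    conv_lhs => rw [← b.sum_equivFun x]
    simp only [map_sum, LinearMap.sum_apply, map_smul, LinearMap.smul_apply, smul_eq_mul]
  have h2 : ∀ x y z, μ x y z = ∑ i, b.equivFun y i * μ x (b i) z := by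
    intro x y z
    conv_lhs => rw [← b.sum_equivFun y]
    simp only [map_sum, LinearMap.sum_apply, map_smul, LinearMap.smul_apply, smul_eq_mul]
  have h3 : ∀ x y z, μ x y z = ∑ i, b.equivFun z i * μ x y (b i) := by
    intro x y z
    conv_lhs => rw [← b.sum_equivFun z]
    simp only [map_sum, map_smul, smul_eq_mul]
  rw [h1 x y z]
  unfold tri
  refine Finset.sum_congr rfl fun i _ => ?_
  rw [h2 (b i) y z, Finset.mul_sum]
  refine Finset.sum_congr rfl fun j _ => ?_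
  rw [h3 (b i) (b j) z, Finset.mul_sum, Finset.mul_sum]
  refine Finset.sum_congr rfl fun k _ => ?_
  ring

theorem splits_iff (b : Module.Basis (Fin n) ℤ V) (μ : V →ₗ[ℤ] V →ₗ[ℤ] V →ₗ[ℤ] ℤ) :
    Splits (fun i j k => μ (b i) (b j) (b k)) ↔ SplitsV fun x y z => μ x y z := by
  let e : V ≃ₗ[ℤ] (Fin n → ℤ) := b.equivFun
  let E : Submodule ℤ V ≃o Submodule ℤ (Fin n → ℤ) := Submodule.orderIsoMapComap e
  have hmem : ∀ (A : Submodule ℤ V) (v : V), e v ∈ E A ↔ v ∈ A := by
    intro A v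
    show e v ∈ A.map (e : V →ₗ[ℤ] (Fin n → ℤ)) ↔ v ∈ A
    rw [Submodule.mem_map_equiv, LinearEquiv.symm_apply_apply]
  constructor
  · rintro ⟨A, B, hAB, hA, hB⟩
    refine ⟨E.symm A, E.symm B, ?_, ?_, ?_⟩
    · exact (OrderIso.isCompl_iff E.symm).1 hAB
    · intro x hx y hy z hz
      have h := hA (e x) ?_ (e y) ?_ (e z) ?_
      · rwa [show tri _ (e x) (e y) (e z) = μ x y z from tri_eq b μ x y z] at h
      · rwa [← hmem, OrderIso.apply_symm_apply] at hx
      · rwa [← hmem, OrderIso.apply_symm_apply] at hy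
      · rwa [← hmem, OrderIso.apply_symm_apply] at hz
    · intro x hx y hy z hz
      have h := hB (e x) ?_ (e y) ?_ (e z) ?_
      · rwa [show tri _ (e x) (e y) (e z) = μ x y z from tri_eq b μ x y z] at h
      · rwa [← hmem, OrderIso.apply_symm_apply] at hx
      · rwa [← hmem, OrderIso.apply_symm_apply] at hy
      · rwa [← hmem, OrderIso.apply_symm_apply] at hz
  · rintro ⟨A, B, hAB, hA, hB⟩
    have hsurj : ∀ (A : Submodule ℤ V) (u : Fin n → ℤ), u ∈ E A → ∃ v ∈ A, e v = u := by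
      intro A u hu
      refine ⟨e.symm u, ?_, e.apply_symm_apply u⟩
      rw [← hmem, e.apply_symm_apply]
      exact hu
    refine ⟨E A, E B, (OrderIso.isCompl_iff E).1 hAB, ?_, ?_⟩
    · intro x hx y hy z hz
      obtain ⟨x', hx', rfl⟩ := hsurj A x hx
      obtain ⟨y', hy', rfl⟩ := hsurj A y hy
      obtain ⟨z', hz', rfl⟩ := hsurj A z hz
      rw [show tri _ (e x') (e y') (e z') = μ x' y' z' from tri_eq b μ x' y' z']
      exact hA x' hx' y' hy' z' hz'
    · intro x hx y hy z hz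
      obtain ⟨x', hx', rfl⟩ := hsurj B x hx
      obtain ⟨y', hy', rfl⟩ := hsurj B y hy
      obtain ⟨z', hz', rfl⟩ := hsurj B z hz
      rw [show tri _ (e x') (e y') (e z') = μ x' y' z' from tri_eq b μ x' y' z']
      exact hB x' hx' y' hy' z' hz'

/-- a pencil of alternating forms on a free module of finite rank, in coordinates -/
theorem exists_arrays [Module.Free ℤ V] [Module.Finite ℤ V]
    (μ₀ μ₁ : V →ₗ[ℤ] V →ₗ[ℤ] V →ₗ[ℤ] ℤ)
    (h₀ : ∀ x y, μ₀ x x y = 0 ∧ μ₀ x y y = 0) (h₁ : ∀ x y, μ₁ x x y = 0 ∧ μ₁ x y y = 0) :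
    ∃ (n : ℕ) (C D : Fin n → Fin n → Fin n → ℤ), IsAlt C ∧ IsAlt D ∧
      ∀ a : ℤ, Splits (fun i j k => C i j k + a * D i j k) ↔
        SplitsV fun x y z => μ₀ x y z + a * μ₁ x y z := by
  let b := Module.finBasis ℤ V
  have halt : ∀ μ : V →ₗ[ℤ] V →ₗ[ℤ] V →ₗ[ℤ] ℤ, (∀ x y, μ x x y = 0 ∧ μ x y y = 0) →
      IsAlt (fun i j k => μ (b i) (b j) (b k)) := by
    intro μ h i j k
    constructor
    · have := (h (b i + b j) (b k)).1
      simp only [map_add, LinearMap.add_apply, (h (b i) (b k)).1, (h (b j) (b k)).1] at this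
      linarith
    · have := (h (b i) (b j + b k)).2
      simp only [map_add, LinearMap.add_apply, (h (b i) (b j)).2, (h (b i) (b k)).2] at this
      linarith
  refine ⟨_, fun i j k => μ₀ (b i) (b j) (b k), fun i j k => μ₁ (b i) (b j) (b k),
    halt μ₀ h₀, halt μ₁ h₁, fun a => ?_⟩
  have := splits_iff b (μ₀ + a • μ₁)
  simpa [LinearMap.add_apply, LinearMap.smul_apply, smul_eq_mul] using this

end Pool.Agent.Helper50.MR.Transport
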