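import Pool.Agent.Helper50.MR.Comp
import Pool.Agent.Helper50.MR.Transport
import Pool.Agent.Helper50.MR.Undec

/-!
# From one pencil for every r.e. set to undecidability and completeness for one fixed `n`
-/

namespace Pool.Agent.Helper50.MR.Final

open Pool.Agent.Helper41.MR
open Nat.Partrec (Code)

theorem re_dom {p : ℕ → Prop} (hp : REPred p) : ∃ c : Code, ∀ a, p a ↔ (Nat.Partrec.Code.eval c a).Dom := by
  have h1 : Partrec fun a : ℕ => (Part.assert (p a) fun _ => Part.some ()).map fun _ => (0 : ℕ) :=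
    hp.map (Computable.const 0).to₂
  obtain ⟨c, hc⟩ := Nat.Partrec.Code.exists_code.1 (Partrec.nat_iff.1 h1)
  refine ⟨c, fun a => ?_⟩
  rw [hc, Part.dom_iff_mem]
  simp

theorem isAlt_pencil {n : ℕ} {C D : Fin n → Fin n → Fin n → ℤ} (hC : IsAlt C) (hD : IsAlt D)
    (a : ℤ) : IsAlt fun i j k => C i j k + a * D i j k := by
  intro i j k
  constructor
  · show C j i k + a * D j i k = -(C i j k + a * D i j k)
    rw [(hC i j k).1, (hD i j k).1]
    ring
  · show C i k j + a * D i k j = -(C i j k + a * D i j k)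
    rw [(hC i j k).2, (hD i j k).2]
    ring

theorem f3_of_f1 (h : F1) : F3 := by
  let U : ℕ → Prop := fun m =>
    (Nat.Partrec.Code.eval (Denumerable.ofNat Code m.unpair.1) m.unpair.2).Dom
  have hU : REPred U := by
    have h1 : Partrec fun m : ℕ =>
        Nat.Partrec.Code.eval (Denumerable.ofNat Code m.unpair.1) m.unpair.2 :=
      Nat.Partrec.Code.eval_part.comp
        ((Computable.ofNat Code).comp (Computable.fst.comp Primrec.unpair.to_comp))
        (Computable.snd.comp Primrec.unpair.to_comp)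
    exact h1.dom_re
  obtain ⟨n, C, D, hC, hD, hU2⟩ := h U hU
  refine ⟨n, fun p hp => ?_⟩
  obtain ⟨c, hc⟩ := re_dom hp
  refine ⟨fun a => (fun i j k => C i j k + ((Nat.pair (Encodable.encode c) a : ℕ) : ℤ) * D i j k),
    ?_, fun a => isAlt_pencil hC hD _, fun a => ?_⟩
  · have h2 : Computable fun a : ℕ => Nat.pair (Encodable.encode c) a :=
      (Primrec₂.natPair.comp (Primrec.const _) Primrec.id).to_comp
    exact (Comp.computable_pencil C D).comp h2
  · have h3 := hU2 (Nat.pair (Encodable.encode c) a)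
    rw [← h3, hc a]
    simp [U]

theorem f2_of_f3 (h : F3) : F2 := by
  obtain ⟨n, hn⟩ := h
  refine ⟨n, ?_⟩
  rintro ⟨f, hf, hfs⟩
  obtain ⟨p, hp, hc⟩ := exists_re_not_computable
  obtain ⟨g, hg, halt, hgs⟩ := hn p hp
  refine hc (ComputablePred.computable_iff.2 ⟨fun a => f (g a), hf.comp hg, ?_⟩)
  funext a
  exact propext ((hgs a).trans (hfs (g a) (halt a)).symm)

theorem f2_f3_of_f1 (h : F1) : F2 ∧ F3 := ⟨f2_of_f3 (f3_of_f1 h), f3_of_f1 h⟩

end Pool.Agent.Helper50.MR.Final
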