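import Mathlib

/-!
# From one polynomial equation to a system of quadratic equations with one linear parameter
-/

namespace Pool.Agent.Helper50.MR.Quad

open MvPolynomial

/-- an equation `c + e a + l z + q z z = 0` in unknowns indexed by `V` -/
structure Eqn (V : Type) where
  c : ℤ
  e : ℤ
  l : V → ℤ
  q : V → V → ℤ

/-- the equation holds -/
def Eqn.Holds {V : Type} [Fintype V] (E : Eqn V) (a : ℤ) (z : V → ℤ) : Prop :=
  E.c + E.e * a + ∑ j, E.l j * z j + ∑ j, ∑ k, E.q j k * (z j * z k) = 0

section

variable {V : Type} [Fintype V] [DecidableEq V]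

/-- `z s = 1` -/
def one (s : V) : Eqn V := ⟨-1, 0, fun j => if j = s then 1 else 0, fun _ _ => 0⟩

/-- `z s = a` -/
def par (s : V) : Eqn V := ⟨0, -1, fun j => if j = s then 1 else 0, fun _ _ => 0⟩

/-- `z s = z u * z w` -/
def mul (s u w : V) : Eqn V :=
  ⟨0, 0, fun j => if j = s then 1 else 0, fun j k => if j = u then if k = w then -1 else 0 else 0⟩

/-- linear equation -/
def lin (b : V → ℤ) : Eqn V := ⟨0, 0, b, fun _ _ => 0⟩

theorem holds_one (s : V) (a : ℤ) (z : V → ℤ) : (one s).Holds a z ↔ z s = 1 := by
  simp only [Eqn.Holds, one, zero_mul, Finset.sum_const_zero, add_zero, ite_mul, one_mul,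
    Finset.sum_ite_eq', Finset.mem_univ, if_true]
  constructor <;> intro h <;> linarith

theorem holds_par (s : V) (a : ℤ) (z : V → ℤ) : (par s).Holds a z ↔ z s = a := by
  simp only [Eqn.Holds, par, zero_mul, Finset.sum_const_zero, add_zero, ite_mul, one_mul,
    Finset.sum_ite_eq', Finset.mem_univ, if_true]
  constructor <;> intro h <;> linarith

theorem holds_mul (s u w : V) (a : ℤ) (z : V → ℤ) : (mul s u w).Holds a z ↔ z s = z u * z w := by
  have h1 : ∀ j, (∑ k, (if j = u then if k = w then (-1 : ℤ) else 0 else 0) * (z j * z k)) =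
      if j = u then -(z j * z w) else 0 := by
    intro j
    by_cases hj : j = u
    · simp [hj]
    · simp [hj]
  simp only [Eqn.Holds, mul, zero_mul, add_zero, ite_mul, one_mul, zero_add,
    Finset.sum_ite_eq', Finset.mem_univ, if_true]
  have h2 : (∑ j, ∑ k, (if j = u then if k = w then (-1 : ℤ) * (z j * z k) else 0 else 0)) =
      -(z u * z w) := by
    rw [Finset.sum_eq_single u]
    · rw [Finset.sum_eq_single w]
      · simp
      · intro b _ hb
        simp [hb]
      · intro h
        exact absurd (Finset.mem_univ _) h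
    · intro b _ hb
      simp [hb]
    · intro h
      exact absurd (Finset.mem_univ _) h
  rw [h2]
  constructor <;> intro h <;> linarith

theorem holds_lin (b : V → ℤ) (a : ℤ) (z : V → ℤ) : (lin b).Holds a z ↔ ∑ j, b j * z j = 0 := by
  simp only [Eqn.Holds, lin, zero_mul, Finset.sum_const_zero, add_zero, zero_add]

end

/-- transport along an equivalence of index sets -/
def Eqn.map {V W : Type} (f : W ≃ V) (E : Eqn V) : Eqn W :=
  ⟨E.c, E.e, fun j => E.l (f j), fun j k => E.q (f j) (f k)⟩

theorem holds_map {V W : Type} [Fintype V] [Fintype W] (f : W ≃ V) (E : Eqn V) (a : ℤ)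
    (z : V → ℤ) : (E.map f).Holds a (fun j => z (f j)) ↔ E.Holds a z := by
  unfold Eqn.Holds Eqn.map
  have h1 : (∑ j, E.l (f j) * z (f j)) = ∑ j, E.l j * z j :=
    f.sum_comp fun j => E.l j * z j
  have h2 : (∑ j, ∑ k, E.q (f j) (f k) * (z (f j) * z (f k))) =
      ∑ j, ∑ k, E.q j k * (z j * z k) := by
    rw [← f.sum_comp fun j => ∑ k, E.q j k * (z j * z k)]
    refine Finset.sum_congr rfl fun j _ => ?_
    exact f.sum_comp fun k => E.q (f j) k * (z (f j) * z k)
  simp only [h1, h2]

section

variable {σ : Type} [Fintype σ] [DecidableEq σ] {d : ℕ}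

/-- the exponent of one unknown -/
def en (i : σ) : σ → Fin (d + 2) := Function.update 0 i 1

/-- one exponent is raised -/
def up (s : σ → Fin (d + 2)) (i : σ) : σ → Fin (d + 2) := Function.update s i (s i + 1)

theorem pow_up (x : σ → ℤ) (s : σ → Fin (d + 2)) (i : σ) (h : s i < Fin.last (d + 1)) :
    (∏ j, x j ^ (up s i j : ℕ)) = (∏ j, x j ^ (s j : ℕ)) * x i := by
  have h1 : ∀ j, x j ^ (up s i j : ℕ) = x j ^ (s j : ℕ) * if j = i then x j else 1 := by
    intro j
    by_cases hj : j = i
    · subst hj
      rw [up, Function.update_self, Fin.val_add_one_of_lt h, if_pos rfl, pow_succ]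
    · rw [up, Function.update_of_ne hj, if_neg hj, mul_one]
  rw [Finset.prod_congr rfl fun j _ => h1 j, Finset.prod_mul_distrib, Finset.prod_ite_eq']
  simp

theorem pow_en (x : σ → ℤ) (i : σ) : (∏ j, x j ^ ((en i : σ → Fin (d + 2)) j : ℕ)) = x i := by
  have h0 : (0 : σ → Fin (d + 2)) i < Fin.last (d + 1) := by
    rw [Fin.lt_def]
    simp
  have := pow_up x (0 : σ → Fin (d + 2)) i h0
  have e : up (0 : σ → Fin (d + 2)) i = en i := by
    unfold up en
    simp
  rw [e] at this
  rw [this]
  simp

/-- the monomials are determined by the equations -/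
theorem mono_of (z : (σ → Fin (d + 2)) → ℤ) (h0 : z 0 = 1)
    (hm : ∀ s i, s i < Fin.last (d + 1) → z (up s i) = z s * z (en i)) :
    ∀ (m : ℕ) (s : σ → Fin (d + 2)), (∑ i, (s i : ℕ)) = m →
      z s = ∏ i, z (en i) ^ (s i : ℕ) := by
  intro m
  induction m with
  | zero =>
    intro s hs
    have hs' : ∀ i, (s i : ℕ) = 0 := fun i =>
      (Finset.sum_eq_zero_iff.1 hs) i (Finset.mem_univ i)
    have : s = 0 := by
      funext i
      exact Fin.ext (hs' i)
    rw [Finset.prod_congr rfl fun i _ => by rw [hs' i, pow_zero], Finset.prod_const_one, this, h0]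
  | succ m ih =>
    intro s hs
    obtain ⟨i, hi⟩ : ∃ i, (s i : ℕ) ≠ 0 := by
      by_contra hc
      push Not at hc
      rw [Finset.sum_eq_zero fun i _ => hc i] at hs
      omega
    let r : σ → Fin (d + 2) := Function.update s i ⟨(s i : ℕ) - 1, by have := (s i).2; omega⟩
    have hr : r i < Fin.last (d + 1) := by
      rw [Fin.lt_def]
      simp only [r, Function.update_self, Fin.val_last]
      have := (s i).2
      omega
    have hrs : up r i = s := by
      funext j
      by_cases hj : j = i
      · subst hj
        rw [up, Function.update_self]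
        apply Fin.ext
        rw [Fin.val_add_one_of_lt hr]
        simp only [r, Function.update_self]
        omega
      · rw [up, Function.update_of_ne hj]
        simp only [r]
        rw [Function.update_of_ne hj]
    have hsum : (∑ j, (s j : ℕ)) = (∑ j, (r j : ℕ)) + 1 := by
      have h1 : ∀ j, (s j : ℕ) = (r j : ℕ) + if j = i then 1 else 0 := by
        intro j
        by_cases hj : j = i
        · subst hj
          simp only [r, Function.update_self, if_true]
          omega
        · simp only [r]
          rw [Function.update_of_ne hj, if_neg hj, add_zero]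
      rw [Finset.sum_congr rfl fun j _ => h1 j, Finset.sum_add_distrib, Finset.sum_ite_eq']
      simp
    have h2 := ih r (by omega)
    rw [← hrs, hm r i hr, h2, pow_up (fun j => z (en j)) r i hr]

end

/-- **P4a**: a polynomial equation is equivalent to a system of quadratic equations, in which the
parameter occurs linearly. -/
theorem poly_quad {n : ℕ} (P : MvPolynomial (Option (Fin n)) ℤ) :
    ∃ (v M : ℕ) (c e : Fin M → ℤ) (l : Fin M → Fin v → ℤ) (q : Fin M → Fin v → Fin v → ℤ),
      ∀ a : ℤ, (∃ t : Fin n → ℤ, MvPolynomial.eval (Option.elim' a t) P = 0) ↔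
        ∃ z : Fin v → ℤ, ∀ i, c i + e i * a + ∑ j, l i j * z j +
          ∑ j, ∑ k, q i j k * (z j * z k) = 0 := by
  classical
  obtain ⟨d, hd⟩ : ∃ d : ℕ, ∀ s ∈ P.support, ∀ i, s i ≤ d := by
    refine ⟨P.support.sup fun s => ∑ i, s i, fun s hs i => ?_⟩
    exact (Finset.single_le_sum (f := fun i => s i) (fun _ _ => Nat.zero_le _)
      (Finset.mem_univ i)).trans (Finset.le_sup (f := fun s : Option (Fin n) →₀ ℕ => ∑ i, s i) hs)
  let σ := Option (Fin n)
  let V := σ → Fin (d + 2)
  let hat : (σ →₀ ℕ) → V := fun s i => Fin.ofNat (d + 2) (s i)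
  have hhat : ∀ s ∈ P.support, ∀ i, ((hat s i : Fin (d + 2)) : ℕ) = s i := by
    intro s hs i
    have := hd s hs i
    simp only [hat, Fin.val_ofNat]
    exact Nat.mod_eq_of_lt (by omega)
  let b : V → ℤ := fun u => ∑ s ∈ P.support, if u = hat s then P.coeff s else 0
  have hb : ∀ z : V → ℤ, (∑ u, b u * z u) = ∑ s ∈ P.support, P.coeff s * z (hat s) := by
    intro z
    simp only [b, Finset.sum_mul]
    rw [Finset.sum_comm]
    refine Finset.sum_congr rfl fun s _ => ?_
    rw [Finset.sum_eq_single (hat s)]
    · simp
    · intro u _ hu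
      rw [if_neg hu, zero_mul]
    · intro h
      exact absurd (Finset.mem_univ _) h
  let I := Option (Option (Option (V × σ)))
  let F : I → Eqn V := fun i => match i with
    | none => one 0
    | some none => par (en none)
    | some (some none) => lin b
    | some (some (some (s, i))) =>
        if s i < Fin.last (d + 1) then mul (up s i) s (en i) else lin 0
  have key : ∀ a : ℤ, (∃ t : Fin n → ℤ, MvPolynomial.eval (Option.elim' a t) P = 0) ↔
      ∃ z : V → ℤ, ∀ i, (F i).Holds a z := by
    intro a
    constructor
    · rintro ⟨t, ht⟩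
      let x : σ → ℤ := Option.elim' a t
      refine ⟨fun s => ∏ j, x j ^ (s j : ℕ), fun i => ?_⟩
      match i with
      | none =>
        refine (holds_one _ _ _).2 ?_
        exact Finset.prod_eq_one fun j _ => pow_zero _
      | some none =>
        refine (holds_par _ _ _).2 ?_
        exact pow_en x none
      | some (some none) =>
        refine (holds_lin _ _ _).2 ?_
        rw [hb, ← ht, MvPolynomial.eval_eq']
        refine Finset.sum_congr rfl fun s hs => ?_
        congr 1
        exact Finset.prod_congr rfl fun j _ => by rw [hhat s hs j]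
      | some (some (some (s, i))) =>
        show (if s i < Fin.last (d + 1) then mul (up s i) s (en i) else lin 0).Holds _ _
        split_ifs with h
        · refine (holds_mul _ _ _ _ _).2 ?_
          rw [pow_up x s i h, pow_en x i]
        · exact (holds_lin _ _ _).2 (by simp)
    · rintro ⟨z, hz⟩
      have h0 : z 0 = 1 := (holds_one _ _ _).1 (hz none)
      have ha : z (en none) = a := (holds_par _ _ _).1 (hz (some none))
      have hl := (holds_lin _ _ _).1 (hz (some (some none)))
      have hm : ∀ (s : V) i, s i < Fin.last (d + 1) → z (up s i) = z s * z (en i) := by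
        intro s i h
        have h1 := hz (some (some (some (s, i))))
        have h2 : F (some (some (some (s, i)))) = mul (up s i) s (en i) := if_pos h
        rw [h2] at h1
        exact (holds_mul _ _ _ _ _).1 h1
      have hmono := mono_of z h0 hm
      refine ⟨fun i => z (en (some i)), ?_⟩
      have hx : ∀ i, (Option.elim' a (fun i : Fin n => z (en (some i)))) i = z (en i) := by
        intro i
        cases i with
        | none => exact ha.symm
        | some i => rfl
      rw [MvPolynomial.eval_eq', ← hl, hb]
      refine Finset.sum_congr rfl fun s hs => ?_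
      rw [hmono _ (hat s) rfl]
      congr 1
      exact Finset.prod_congr rfl fun j _ => by rw [hx j, hhat s hs j]
  let fV := (Fintype.equivFin V).symm
  let fI := (Fintype.equivFin I).symm
  refine ⟨Fintype.card V, Fintype.card I, fun i => ((F (fI i)).map fV).c,
    fun i => ((F (fI i)).map fV).e, fun i => ((F (fI i)).map fV).l,
    fun i => ((F (fI i)).map fV).q, fun a => (key a).trans ?_⟩
  constructor
  · rintro ⟨z, hz⟩
    exact ⟨fun j => z (fV j), fun i => (holds_map fV _ a z).2 (hz (fI i))⟩
  · rintro ⟨z, hz⟩
    refine ⟨fun j => z (fV.symm j), fun i => ?_⟩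
    have h1 := hz (fI.symm i)
    rw [← holds_map fV]
    have h2 : (fun j => (fun j => z (fV.symm j)) (fV j)) = z := by
      funext j
      simp
    rw [h2]
    have h3 : ((F (fI (fI.symm i))).map fV).Holds a z := h1
    rw [Equiv.apply_symm_apply] at h3
    exact h3

end Pool.Agent.Helper50.MR.Quad
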