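import Pool.Agent.Helper89.MR.Fin

/-!
# MRDP: recursively enumerable sets are Diophantine, from the primitive recursive case
-/

namespace Pool.Agent.Helper50.MR

open Nat.Partrec (Code)
open Nat.Partrec.Code

/-- A code for a recursively enumerable set. -/
theorem re_code {p : ℕ → Prop} (hp : REPred p) : ∃ c : Code, ∀ a, p a ↔ ∃ k, (evaln k c a).isSome := by
  have h1 : Partrec fun a : ℕ => (Part.assert (p a) fun _ => Part.some ()).map fun _ => (0 : ℕ) :=
    hp.map (Computable.const 0).to₂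
  obtain ⟨c, hc⟩ := exists_code.1 (Partrec.nat_iff.1 h1)
  refine ⟨c, fun a => ?_⟩
  have h2 : p a ↔ ∃ x, x ∈ eval c a := by
    rw [hc]
    simp
  rw [h2]
  constructor
  · rintro ⟨x, hx⟩
    obtain ⟨k, hk⟩ := evaln_complete.1 hx
    exact ⟨k, by rw [Option.mem_def.1 hk]; rfl⟩
  · rintro ⟨k, hk⟩
    obtain ⟨x, hx⟩ := Option.isSome_iff_exists.1 hk
    exact ⟨x, evaln_sound hx⟩

/-- A recursively enumerable set is the projection of the zero set of a primitive recursive
function. -/
theorem re_primrec {p : ℕ → Prop} (hp : REPred p) : ∃ f : List.Vector ℕ 2 → ℕ, Nat.Primrec' f ∧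
    ∀ a, p a ↔ ∃ k, f (List.Vector.ofFn ![k, a]) ≠ 0 := by
  obtain ⟨c, hc⟩ := re_code hp
  refine ⟨fun v => Encodable.encode (evaln (v.get 0) c (v.get 1)), ?_, fun a => ?_⟩
  · refine Nat.Primrec'.prim_iff.2 (Primrec.encode.comp ?_)
    have h0 : Primrec fun v : List.Vector ℕ 2 => v.get 0 :=
      Primrec.vector_get.comp Primrec.id (Primrec.const 0)
    have h1 : Primrec fun v : List.Vector ℕ 2 => v.get 1 :=
      Primrec.vector_get.comp Primrec.id (Primrec.const 1)
    exact primrec_evaln.comp ((h0.pair (Primrec.const c)).pair h1)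
  · rw [hc a]
    refine exists_congr fun k => ?_
    simp only [List.Vector.get_ofFn, Matrix.cons_val_zero, Matrix.cons_val_one]
    cases evaln k c a <;> simp

/-- **MRDP** from the primitive recursive case. -/
theorem re_dioph_of
    (hprim : ∀ {n : ℕ} {f : List.Vector ℕ n → ℕ}, Nat.Primrec' f →
      Dioph.DiophFn fun v : Fin n → ℕ => f (List.Vector.ofFn v))
    {p : ℕ → Prop} (hp : REPred p) :
    ∃ (n : ℕ) (P : Poly (Option (Fin n))), ∀ a, p a ↔
      ∃ t : Fin n → ℕ, P (Option.elim' a t) = 0 := by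
  obtain ⟨f, hf, h⟩ := re_primrec hp
  have h1 := hprim hf
  have h2 : Dioph {v : Fin 2 → ℕ | f (List.Vector.ofFn v) ≠ 0} :=
    Dioph.ne_dioph h1 (Dioph.const_dioph 0)
  obtain ⟨n, q, hq⟩ := Helper89.MR.exists_fin h2
  let g : (Fin 2 ⊕ Fin n) → Option (Fin (n + 1)) :=
    Sum.elim (fun i => if i = 0 then some 0 else none) fun i => some i.succ
  refine ⟨n + 1, q.map g, fun a => (h a).trans ?_⟩
  have e : ∀ (k : ℕ) (t : Fin n → ℕ),
      (Option.elim' a (Fin.cons (α := fun _ => ℕ) k t)) ∘ g = Sum.elim ![k, a] t := by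
    intro k t
    funext i
    rcases i with i | i
    · fin_cases i
      · simp [g]
      · simp [g]
    · simp [g]
  constructor
  · rintro ⟨k, hk⟩
    obtain ⟨t, ht⟩ := (hq ![k, a]).1 hk
    refine ⟨Fin.cons (α := fun _ => ℕ) k t, ?_⟩
    rw [Poly.map_apply, e]
    exact ht
  · rintro ⟨t, ht⟩
    refine ⟨t 0, (hq ![t 0, a]).2 ⟨fun i => t i.succ, ?_⟩⟩
    rw [← e, ← Poly.map_apply]
    have : Fin.cons (α := fun _ => ℕ) (t 0) (fun i => t i.succ) = t := Fin.cons_self_tail t
    rw [this]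
    exact ht

end Pool.Agent.Helper50.MR
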