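import Pool.Agent.Helper50.MR.Quad

/-!
# The system in pair form, with alternating quadratic part
-/

namespace Pool.Agent.Helper50.MR.Quad

/-- one equation of the pair form -/
def PHolds {N : ℕ} (c e : ℤ) (l l' : Fin N → ℤ) (w : Fin N → Fin N → ℤ) (a : ℤ)
    (x y : Fin N → ℤ) : Prop :=
  c + e * a + ∑ j, l j * x j + ∑ j, l' j * y j + ∑ j, ∑ k, w j k * (x j * y k - x k * y j) = 0

/-- **P4b**: a polynomial equation is equivalent to a system of equations in two vectors `x`, `y`
with alternating quadratic part, in which the parameter occurs linearly. -/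
theorem poly_sys {n : ℕ} (P : MvPolynomial (Option (Fin n)) ℤ) :
    ∃ (Ne M : ℕ) (c e : Fin M → ℤ) (l l' : Fin M → Fin Ne → ℤ)
      (w : Fin M → Fin Ne → Fin Ne → ℤ),
      ∀ a : ℤ, (∃ t : Fin n → ℤ, MvPolynomial.eval (Option.elim' a t) P = 0) ↔
        ∃ x y : Fin Ne → ℤ, ∀ i, c i + e i * a + ∑ j, l i j * x j + ∑ j, l' i j * y j +
          ∑ j, ∑ k, w i j k * (x j * y k - x k * y j) = 0 := by
  classical
  obtain ⟨v, M, c, e, l, q, h⟩ := poly_quad P
  let I := Fin M ⊕ (Fin v ⊕ (Fin v ⊕ Fin v))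
  let c' : I → ℤ := Sum.elim c fun _ => 0
  let e' : I → ℤ := Sum.elim e fun _ => 0
  let lx : I → Fin (v + v) → ℤ := Sum.elim (fun i => Fin.append (l i) 0)
    (Sum.elim (fun j => Fin.append 0 (Pi.single j 1))
      (Sum.elim (fun _ => 0) fun j => Fin.append (Pi.single j 1) 0))
  let ly : I → Fin (v + v) → ℤ := Sum.elim (fun _ => 0)
    (Sum.elim (fun _ => 0)
      (Sum.elim (fun j => Fin.append (Pi.single j 1) 0) fun j => Fin.append 0 (Pi.single j (-1))))
  let w' : I → Fin (v + v) → Fin (v + v) → ℤ :=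
    Sum.elim (fun i => Fin.append (fun j => Fin.append 0 (q i j)) 0) fun _ => 0
  have key : ∀ (a : ℤ) (x y : Fin (v + v) → ℤ),
      (∀ i, PHolds (c' i) (e' i) (lx i) (ly i) (w' i) a x y) ↔
        (∀ j, x (Fin.natAdd v j) = 0) ∧ (∀ j, y (Fin.castAdd v j) = 0) ∧
        (∀ j, x (Fin.castAdd v j) = y (Fin.natAdd v j)) ∧
        ∀ i, c i + e i * a + ∑ j, l i j * x (Fin.castAdd v j) +
          ∑ j, ∑ k, q i j k * (x (Fin.castAdd v j) * y (Fin.natAdd v k) -
            x (Fin.natAdd v k) * y (Fin.castAdd v j)) = 0 := by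
    intro a x y
    have h1 : ∀ i : Fin M, PHolds (c' (Sum.inl i)) (e' (Sum.inl i)) (lx (Sum.inl i))
        (ly (Sum.inl i)) (w' (Sum.inl i)) a x y ↔
        c i + e i * a + ∑ j, l i j * x (Fin.castAdd v j) +
          ∑ j, ∑ k, q i j k * (x (Fin.castAdd v j) * y (Fin.natAdd v k) -
            x (Fin.natAdd v k) * y (Fin.castAdd v j)) = 0 := by
      intro i
      simp [PHolds, c', e', lx, ly, w', Fin.sum_univ_add, -Fin.natAdd_eq_addNat]
    have h2 : ∀ j : Fin v, PHolds (c' (Sum.inr (Sum.inl j))) (e' (Sum.inr (Sum.inl j)))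
        (lx (Sum.inr (Sum.inl j))) (ly (Sum.inr (Sum.inl j))) (w' (Sum.inr (Sum.inl j))) a x y ↔
        x (Fin.natAdd v j) = 0 := by
      intro j
      simp [PHolds, c', e', lx, ly, w', Fin.sum_univ_add, Pi.single_apply, -Fin.natAdd_eq_addNat]
    have h3 : ∀ j : Fin v, PHolds (c' (Sum.inr (Sum.inr (Sum.inl j))))
        (e' (Sum.inr (Sum.inr (Sum.inl j)))) (lx (Sum.inr (Sum.inr (Sum.inl j))))
        (ly (Sum.inr (Sum.inr (Sum.inl j)))) (w' (Sum.inr (Sum.inr (Sum.inl j)))) a x y ↔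
        y (Fin.castAdd v j) = 0 := by
      intro j
      simp [PHolds, c', e', lx, ly, w', Fin.sum_univ_add, Pi.single_apply, -Fin.natAdd_eq_addNat]
    have h4 : ∀ j : Fin v, PHolds (c' (Sum.inr (Sum.inr (Sum.inr j))))
        (e' (Sum.inr (Sum.inr (Sum.inr j)))) (lx (Sum.inr (Sum.inr (Sum.inr j))))
        (ly (Sum.inr (Sum.inr (Sum.inr j)))) (w' (Sum.inr (Sum.inr (Sum.inr j)))) a x y ↔
        x (Fin.castAdd v j) = y (Fin.natAdd v j) := by
      intro j
      simp only [PHolds, c', e', lx, ly, w', Fin.sum_univ_add, Pi.single_apply, Sum.elim_inr,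
        Fin.append_left, Fin.append_right, Pi.zero_apply, zero_mul, Finset.sum_const_zero,
        add_zero, zero_add, ite_mul, one_mul, Finset.sum_ite_eq', Finset.mem_univ, if_true]
      constructor <;> intro h <;> linarith
    constructor
    · intro H
      exact ⟨fun j => (h2 j).1 (H _), fun j => (h3 j).1 (H _), fun j => (h4 j).1 (H _),
        fun i => (h1 i).1 (H _)⟩
    · rintro ⟨H2, H3, H4, H1⟩ (i | j | j | j)
      · exact (h1 i).2 (H1 i)
      · exact (h2 j).2 (H2 j)
      · exact (h3 j).2 (H3 j)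
      · exact (h4 j).2 (H4 j)
  let f := (Fintype.equivFin I).symm
  refine ⟨v + v, Fintype.card I, fun i => c' (f i), fun i => e' (f i), fun i => lx (f i),
    fun i => ly (f i), fun i => w' (f i), fun a => (h a).trans ?_⟩
  have hf : ∀ x y : Fin (v + v) → ℤ,
      (∀ i, PHolds (c' (f i)) (e' (f i)) (lx (f i)) (ly (f i)) (w' (f i)) a x y) ↔
        ∀ i, PHolds (c' i) (e' i) (lx i) (ly i) (w' i) a x y := by
    intro x y
    constructor
    · intro H i
      have := H (f.symm i)
      rwa [Equiv.apply_symm_apply] at this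
    · intro H i
      exact H (f i)
  constructor
  · rintro ⟨z, hz⟩
    refine ⟨Fin.append z 0, Fin.append 0 z, ?_⟩
    refine (hf _ _).2 ((key a _ _).2 ⟨?_, ?_, ?_, ?_⟩)
    · intro j
      rw [Fin.append_right]
      rfl
    · intro j
      rw [Fin.append_left]
      rfl
    · intro j
      rw [Fin.append_left, Fin.append_right]
    · intro i
      rw [← hz i]
      simp only [Fin.append_left, Fin.append_right, Pi.zero_apply, zero_mul, sub_zero]
  · rintro ⟨x, y, hxy⟩
    obtain ⟨H2, H3, H4, H1⟩ := (key a x y).1 ((hf x y).1 hxy)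
    refine ⟨fun j => x (Fin.castAdd v j), fun i => ?_⟩
    rw [← H1 i]
    congr 1
    refine Finset.sum_congr rfl fun j _ => Finset.sum_congr rfl fun k _ => ?_
    rw [H2 k]
    show q i j k * (x (Fin.castAdd v j) * x (Fin.castAdd v k)) = _
    rw [H4 k]
    ring

end Pool.Agent.Helper50.MR.Quad
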